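import Mathlib

/-!
Lower bound for the idle time of order-preserving patrols of the circle.
-/

namespace Pool.Agent.P.MP_de14bd_lc

open Finset

/-- One step of the induction: a path `g` that lies above everything not yet bounded. -/
theorem step_bound {ι : Type*} (S : Finset ι) (b : ι → ℝ → ℝ) (bs g : ℝ → ℝ) (T u w c t : ℝ)
    (hT : 0 < T) (hu : 0 ≤ u) (hw : 0 ≤ w) (ht : T / 2 ≤ t)
    (hbs : ∀ x y, 0 ≤ x → 0 ≤ y → |bs x - bs y| ≤ u * |x - y|)
    (hg : ∀ x y, 0 ≤ x → 0 ≤ y → |g x - g y| ≤ w * |x - y|)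
    (hcover : ∀ x K : ℝ, 0 ≤ K → ∃ j ∈ S, ∃ t' ∈ Set.Icc K (K + T), ∃ n : ℤ, b j t' + n = x)
    (hdich : ∀ j ∈ S, ∀ t' ∈ Set.Icc (t - T / 2) (t + T / 2), ∀ n : ℤ,
      b j t' + n ≤ bs t' + c ∨ g t' ≤ b j t' + n) :
    g t ≤ bs t + c + (u + w) * T / 2 := by
  apply le_of_forall_pos_le_add
  intro ε hε
  obtain ⟨j, hj, t', ht', n, hx⟩ := hcover (bs t + u * T / 2 + c + ε) (t - T / 2) (by linarith)
  have ht'' : t' ∈ Set.Icc (t - T / 2) (t + T / 2) := ⟨ht'.1, by linarith [ht'.2]⟩
  have habs : |t' - t| ≤ T / 2 := by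
    rw [abs_le]; constructor <;> linarith [ht''.1, ht''.2]
  have ht0 : 0 ≤ t := by linarith
  have ht'0 : 0 ≤ t' := by linarith [ht''.1]
  have h1 := hbs t' t ht'0 ht0
  have h2 := hg t' t ht'0 ht0
  have h1' : u * |t' - t| ≤ u * (T / 2) := mul_le_mul_of_nonneg_left habs hu
  have h2' : w * |t' - t| ≤ w * (T / 2) := mul_le_mul_of_nonneg_left habs hw
  have h3 := (abs_le.mp (h1.trans h1')).2
  have h4 := (abs_le.mp (h2.trans h2')).1
  rcases hdich j hj t' ht'' n with h | h
  · linarith
  · linarith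

/-- The key inequality for lifted, totally ordered agents. -/
theorem core_bound {ι : Type*} (S : Finset ι) (v : ι → ℝ) (b : ι → ℝ → ℝ) (s : ι) (T : ℝ)
    (hT : 0 < T) (hs : s ∈ S) (hv : ∀ j ∈ S, 0 ≤ v j)
    (hlip : ∀ j ∈ S, ∀ x y, 0 ≤ x → 0 ≤ y → |b j x - b j y| ≤ v j * |x - y|)
    (hsand : ∀ j ∈ S, ∀ t, 0 ≤ t → b s t ≤ b j t ∧ b j t ≤ b s t + 1)
    (htot : ∀ i ∈ S, ∀ j ∈ S, (∀ t, 0 ≤ t → b i t ≤ b j t) ∨ (∀ t, 0 ≤ t → b j t ≤ b i t))
    (hcover : ∀ x K : ℝ, 0 ≤ K → ∃ j ∈ S, ∃ t' ∈ Set.Icc K (K + T), ∃ n : ℤ, b j t' + n = x) :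
    1 ≤ T * (∑ j ∈ S, v j + S.card * v s) / 2 := by
  classical
  set u := v s with hu_def
  have hu : 0 ≤ u := hv s hs
  let D : ι → Finset ι := fun j => S.filter (fun i => ∀ t, 0 ≤ t → b i t ≤ b j t)
  let c : Finset ι → ℝ := fun A => ∑ i ∈ A, (u + v i) * T / 2
  have cmono : ∀ A B : Finset ι, A ⊆ B → B ⊆ S → c A ≤ c B := by
    intro A B hAB hB
    apply Finset.sum_le_sum_of_subset_of_nonneg hAB
    intro i hi _
    have := hv i (hB hi)
    positivity
  have cnonneg : ∀ A : Finset ι, A ⊆ S → 0 ≤ c A := by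
    intro A hA
    have := cmono ∅ A (Finset.empty_subset _) hA
    simpa [c] using this
  have main : ∀ m : ℕ, ∀ j ∈ S, (D j).card ≤ m → ∀ t, (m : ℝ) * T ≤ t →
      b j t ≤ b s t + c ((D j).erase s) := by
    intro m
    induction m with
    | zero =>
      intro j hj hc
      have : j ∈ D j := by simp [D, hj]
      have h0 : D j = ∅ := Finset.card_eq_zero.mp (Nat.le_zero.mp hc)
      rw [h0] at this; simp at this
    | succ m ih =>
      intro j hj hc t ht
      have hDS : D j ⊆ S := Finset.filter_subset _ _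
      by_cases hjs : j = s
      · subst hjs
        have := cnonneg ((D j).erase j) ((Finset.erase_subset _ _).trans hDS)
        linarith
      have hjD : j ∈ D j := by simp [D, hj]
      have hjD' : j ∈ (D j).erase s := Finset.mem_erase.mpr ⟨hjs, hjD⟩
      have hsplit : c ((D j).erase s) = c (((D j).erase s).erase j) + (u + v j) * T / 2 := by
        simp only [c]
        rw [Finset.sum_erase_add _ _ hjD']
      have hmT : (0 : ℝ) ≤ m * T := by positivity
      have ht2 : T / 2 ≤ t := by push_cast at ht; nlinarith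
      have hc' : 0 ≤ c (((D j).erase s).erase j) :=
        cnonneg _ ((Finset.erase_subset _ _).trans ((Finset.erase_subset _ _).trans hDS))
      have := step_bound S b (b s) (b j) T u (v j) (c (((D j).erase s).erase j)) t hT hu
        (hv j hj) ht2 (hlip s hs) (hlip j hj) hcover ?_
      · rw [hsplit]; linarith
      intro i hi t' ht' n
      have ht'm : (m : ℝ) * T ≤ t' := by push_cast at ht; nlinarith [ht'.1]
      have ht'0 : 0 ≤ t' := hmT.trans ht'm
      rcases lt_trichotomy n 0 with hn | hn | hn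
      · left
        have : (n : ℝ) ≤ -1 := by exact_mod_cast (by omega : n ≤ -1)
        linarith [(hsand i hi t' ht'0).2]
      · subst hn
        by_cases hE : ∀ t, 0 ≤ t → b j t ≤ b i t
        · right; simpa using hE t' ht'0
        · left
          have hij : ∀ t, 0 ≤ t → b i t ≤ b j t := (htot i hi j hj).resolve_right hE
          have hsub : D i ⊆ (D j).erase j := by
            intro k hk
            rw [Finset.mem_erase]
            simp only [D, Finset.mem_filter] at hk ⊢
            refine ⟨?_, hk.1, fun t ht => (hk.2 t ht).trans (hij t ht)⟩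
            rintro rfl
            exact hE hk.2
          have hcard : (D i).card ≤ m := by
            have h1 := Finset.card_le_card hsub
            rw [Finset.card_erase_of_mem hjD] at h1
            omega
          have h1 := ih i hi hcard t' ht'm
          have h2 : c ((D i).erase s) ≤ c (((D j).erase s).erase j) := by
            apply cmono
            · intro k hk
              have hk1 := Finset.mem_erase.mp hk
              have hk2 := Finset.mem_erase.mp (hsub hk1.2)
              exact Finset.mem_erase.mpr ⟨hk2.1, Finset.mem_erase.mpr ⟨hk1.1, hk2.2⟩⟩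
            · exact (Finset.erase_subset _ _).trans ((Finset.erase_subset _ _).trans hDS)
          simp only [Int.cast_zero, add_zero]
          linarith
      · right
        have : (1 : ℝ) ≤ n := by exact_mod_cast (by omega : 1 ≤ n)
        linarith [(hsand i hi t' ht'0).1, (hsand j hj t' ht'0).2]
  have hmT : (0 : ℝ) ≤ S.card * T := by positivity
  have hc' : 0 ≤ c (S.erase s) := cnonneg _ (Finset.erase_subset _ _)
  have hfin := step_bound S b (b s) (fun t => b s t + 1) T u u (c (S.erase s))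
    ((S.card + 1) * T) hT hu hu (by nlinarith) (hlip s hs)
    (fun x y hx hy => by simpa using hlip s hs x y hx hy) hcover ?_
  · have hsum : c S = c (S.erase s) + (u + u) * T / 2 := by
      simp only [c]
      rw [← Finset.sum_erase_add S _ hs]
    have hcS : c S = T * (∑ j ∈ S, v j + S.card * u) / 2 := by
      simp only [c]
      rw [← Finset.sum_div, ← Finset.sum_mul, Finset.sum_add_distrib]
      simp only [Finset.sum_const, nsmul_eq_mul]
      ring
    linarith
  intro i hi t' ht' n
  have ht'm : (S.card : ℝ) * T ≤ t' := by nlinarith [ht'.1]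
  have ht'0 : 0 ≤ t' := hmT.trans ht'm
  rcases le_or_gt n 0 with hn | hn
  · left
    have h0 : (n : ℝ) ≤ 0 := by exact_mod_cast hn
    have hDS : D i ⊆ S := Finset.filter_subset _ _
    have h1 := main S.card i hi (Finset.card_le_card hDS) t' ht'm
    have h2 : c ((D i).erase s) ≤ c (S.erase s) :=
      cmono _ _ (Finset.erase_subset_erase _ hDS) (Finset.erase_subset _ _)
    linarith
  · right
    have : (1 : ℝ) ≤ n := by exact_mod_cast (by omega : 1 ≤ n)
    show b s t' + 1 ≤ b i t' + n
    linarith [(hsand i hi t' ht'0).1]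

/-- A continuous lift of a path with the local speed bound is globally Lipschitz. -/
theorem lift_lipschitz (f : ℝ → ℝ) (hf : Continuous f) (v : ℝ) (hv : 0 < v)
    (h : ∀ t ε : ℝ, 0 ≤ t → 0 < ε → ε * v < 1 / 2 →
      dist ((f t : ℝ) : UnitAddCircle) ((f (t + ε) : ℝ) : UnitAddCircle) ≤ v * ε) :
    ∀ x y, 0 ≤ x → 0 ≤ y → |f x - f y| ≤ v * |x - y| := by
  have hdist : ∀ a b : ℝ, dist ((a : ℝ) : UnitAddCircle) ((b : ℝ) : UnitAddCircle)
      = ‖((b - a : ℝ) : UnitAddCircle)‖ := by
    intro a b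
    rw [dist_comm, dist_eq_norm, AddCircle.coe_sub]
  have small : ∀ t ε : ℝ, 0 ≤ t → 0 ≤ ε → ε * v < 1 / 2 → |f (t + ε) - f t| ≤ v * ε := by
    intro t ε ht hε hεv
    rcases hε.eq_or_lt with rfl | hε
    · simp
    have hlt : |f (t + ε) - f t| ≤ 1 / 2 := by
      by_contra hcon
      push Not at hcon
      have hc : ContinuousOn (fun δ => |f (t + δ) - f t|) (Set.Icc 0 ε) := by
        apply Continuous.continuousOn
        fun_prop
      have hmem : (1 / 2 : ℝ) ∈ Set.Icc ((fun δ => |f (t + δ) - f t|) 0)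
          ((fun δ => |f (t + δ) - f t|) ε) := by
        constructor
        · simp
        · exact hcon.le
      obtain ⟨δ, hδ, hδv⟩ := intermediate_value_Icc hε.le hc hmem
      simp only at hδv
      have hδ0 : 0 < δ := by
        rcases hδ.1.eq_or_lt with h0 | h0
        · subst h0; simp at hδv
        · exact h0
      have hδε : δ * v ≤ ε * v := mul_le_mul_of_nonneg_right hδ.2 hv.le
      have h1 := h t δ ht hδ0 (by linarith)
      rw [hdist, (AddCircle.norm_coe_eq_abs_iff (1 : ℝ) one_ne_zero).mpr (by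
        rw [hδv]; simp), hδv] at h1
      linarith
    have h1 := h t ε ht hε hεv
    rwa [hdist, (AddCircle.norm_coe_eq_abs_iff (1 : ℝ) one_ne_zero).mpr (by
        simpa using hlt)] at h1
  have big : ∀ n : ℕ, ∀ t ε : ℝ, 0 ≤ t → 0 ≤ ε → ε * v < (n + 1) / 4 →
      |f (t + ε) - f t| ≤ v * ε := by
    intro n
    induction n with
    | zero => intro t ε ht hε h1; exact small t ε ht hε (by simp at h1; linarith)
    | succ n ih =>
      intro t ε ht hε h1
      by_cases hsm : ε * v < 1 / 2
      · exact small t ε ht hε hsm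
      push Not at hsm
      have hδ : (0 : ℝ) < 1 / (4 * v) := by positivity
      have hδv : 1 / (4 * v) * v = 1 / 4 := by field_simp
      have hle : 1 / (4 * v) ≤ ε := by
        by_contra hcon
        push Not at hcon
        have := mul_lt_mul_of_pos_right hcon hv
        linarith
      have a1 := small t (1 / (4 * v)) ht hδ.le (by linarith)
      have a2 := ih (t + 1 / (4 * v)) (ε - 1 / (4 * v)) (by linarith) (by linarith) (by
        push_cast at h1
        rw [sub_mul, hδv]; linarith)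
      have e : t + 1 / (4 * v) + (ε - 1 / (4 * v)) = t + ε := by ring
      rw [e] at a2
      calc |f (t + ε) - f t|
          = |(f (t + ε) - f (t + 1 / (4 * v))) + (f (t + 1 / (4 * v)) - f t)| := by ring_nf
        _ ≤ |f (t + ε) - f (t + 1 / (4 * v))| + |f (t + 1 / (4 * v)) - f t| := abs_add_le _ _
        _ ≤ v * (ε - 1 / (4 * v)) + v * (1 / (4 * v)) := add_le_add a2 a1
        _ = v * ε := by ring
  have all : ∀ t ε : ℝ, 0 ≤ t → 0 ≤ ε → |f (t + ε) - f t| ≤ v * ε := by
    intro t ε ht hε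
    obtain ⟨n, hn⟩ := exists_nat_gt (4 * (ε * v))
    exact big n t ε ht hε (by linarith)
  intro x y hx hy
  rcases le_total x y with hxy | hxy
  · have := all x (y - x) hx (by linarith)
    rw [abs_sub_comm, abs_sub_comm x y, abs_of_nonneg (by linarith : 0 ≤ y - x)]
    simpa using this
  · have := all y (x - y) hy (by linarith)
    rw [abs_of_nonneg (by linarith : 0 ≤ x - y)]
    simpa using this

open NNReal in
/-- Two continuous lifts of one path differ by a constant integer. -/
theorem lifts_differ (f g : ℝ≥0 → ℝ) (hf : Continuous f) (hg : Continuous g)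
    (h : ∀ t, ((f t : ℝ) : UnitAddCircle) = ((g t : ℝ) : UnitAddCircle)) :
    ∃ n : ℤ, ∀ t, f t = g t + n := by
  have h0 : ∀ t, ((f t - g t : ℝ) : UnitAddCircle) = 0 := by
    intro t; rw [AddCircle.coe_sub, h t, sub_self]
  obtain ⟨n, hn⟩ := (AddCircle.coe_eq_zero_iff (1 : ℝ)).mp (h0 0)
  refine ⟨n, fun t => ?_⟩
  have := (AddCircle.isCoveringMap_coe (1 : ℝ)).const_of_comp (g := fun t => f t - g t)
    (hf.sub hg) (fun a a' => by rw [h0, h0]) t 0
  simp only [zsmul_eq_mul, mul_one] at hn
  linarith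

open NNReal in
theorem exists_lift (a : ℝ≥0 → UnitAddCircle) (ha : Continuous a) :
    ∃ f : ℝ≥0 → ℝ, Continuous f ∧ ∀ t, ((f t : ℝ) : UnitAddCircle) = a t := by
  obtain ⟨e, he⟩ : ∃ e : ℝ, (e : UnitAddCircle) = a 0 := QuotientAddGroup.mk_surjective (a 0)
  obtain ⟨F, ⟨-, hF⟩, -⟩ := (AddCircle.isCoveringMap_coe (1 : ℝ)).existsUnique_continuousMap_lifts
    (⟨fun t : ℝ => a t.toNNReal, ha.comp continuous_real_toNNReal⟩ : C(ℝ, UnitAddCircle)) 0 e
    (by simpa using he)
  refine ⟨fun t => F t, F.continuous.comp NNReal.continuous_coe, fun t => ?_⟩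
  have := congrFun hF t
  simpa using this

open NNReal in
/-- The lower bound, stated for paths on the circle. -/
theorem circle_bound {ι : Type*} (S : Finset ι) (v : ι → ℝ) (a : ι → ℝ≥0 → UnitAddCircle)
    (s : ι) (T : ℝ≥0) (hT : 0 < T) (hs : s ∈ S) (hv : ∀ j, 0 < v j)
    (hcont : ∀ i, Continuous (a i))
    (hspeed : ∀ i, ∀ t ε : ℝ≥0, 0 < ε → (ε : ℝ) * v i < 1 / 2 →
      dist (a i t) (a i (t + ε)) ≤ v i * ε)
    (hfree : ∀ i ∈ S, ∀ j ∈ S, i ≠ j → ∃ f g : ℝ≥0 → ℝ, Continuous f ∧ Continuous g ∧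
      (∀ t, ((f t : ℝ) : UnitAddCircle) = a i t) ∧ (∀ t, ((g t : ℝ) : UnitAddCircle) = a j t) ∧
      ∀ t, f t ≤ g t ∧ g t ≤ f t + 1)
    (hcover : ∀ x : UnitAddCircle, ∀ K : ℝ≥0, ∃ i ∈ S, ∃ t ∈ Set.Icc K (K + T), a i t = x) :
    1 ≤ (T : ℝ) * (∑ j ∈ S, v j + S.card * v s) / 2 := by
  classical
  obtain ⟨fs, hfs, hfsa⟩ := exists_lift (a s) (hcont s)
  have hb : ∀ j, ∃ g : ℝ≥0 → ℝ, Continuous g ∧ (∀ t, ((g t : ℝ) : UnitAddCircle) = a j t) ∧
      (j = s → g = fs) ∧ (j ∈ S → ∀ t, fs t ≤ g t ∧ g t ≤ fs t + 1) := by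
    intro j
    by_cases hjs : j = s
    · subst hjs
      exact ⟨fs, hfs, hfsa, fun _ => rfl, fun _ t => ⟨le_rfl, by linarith⟩⟩
    by_cases hj : j ∈ S
    · obtain ⟨f, g, hf, hg, hfa, hga, hfg⟩ := hfree s hs j hj (Ne.symm hjs)
      obtain ⟨n, hn⟩ := lifts_differ f fs hf hfs (fun t => by rw [hfa, hfsa])
      refine ⟨fun t => g t - n, hg.sub continuous_const, fun t => ?_, fun h => absurd h hjs,
        fun _ t => ?_⟩
      · rw [AddCircle.coe_sub, hga]
        have : ((n : ℝ) : UnitAddCircle) = 0 :=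
          (AddCircle.coe_eq_zero_iff (1 : ℝ)).mpr ⟨n, by simp⟩
        rw [this, sub_zero]
      · have := hfg t
        rw [hn t] at this
        constructor <;> linarith [this.1, this.2]
    · obtain ⟨g, hg, hga⟩ := exists_lift (a j) (hcont j)
      exact ⟨g, hg, hga, fun h => absurd h hjs, fun h => absurd h hj⟩
  choose g hgc hga hgs hgsand using hb
  have hgs' : g s = fs := hgs s rfl
  apply core_bound S v (fun j t => g j t.toNNReal) s T (by exact_mod_cast hT) hs
    (fun j _ => (hv j).le)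
  · intro j _
    apply lift_lipschitz (fun t => g j t.toNNReal) ((hgc j).comp continuous_real_toNNReal)
      (v j) (hv j)
    intro t ε ht hε hεv
    simp only [hga]
    have := hspeed j t.toNNReal ε.toNNReal (by simpa using hε)
      (by rwa [Real.coe_toNNReal _ hε.le])
    rwa [Real.coe_toNNReal _ hε.le, ← Real.toNNReal_add ht hε.le] at this
  · intro j hj t _
    simp only [hgs']
    exact hgsand j hj _
  · intro i hi j hj
    by_cases hij : i = j
    · subst hij; left; intro t _; exact le_rfl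
    obtain ⟨f, f', hf, hf', hfa, hfa', hff⟩ := hfree i hi j hj hij
    obtain ⟨n, hn⟩ := lifts_differ f (g i) hf (hgc i) (fun t => by rw [hfa, hga])
    obtain ⟨n', hn'⟩ := lifts_differ f' (g j) hf' (hgc j) (fun t => by rw [hfa', hga])
    rcases le_or_gt n' n with h | h
    · left
      intro t _
      have h1 := (hff t.toNNReal).1
      rw [hn, hn'] at h1
      have : (n' : ℝ) ≤ n := by exact_mod_cast h
      show g i _ ≤ g j _
      linarith
    · right
      intro t _
      have h1 := (hff t.toNNReal).2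
      rw [hn, hn'] at h1
      have : (n : ℝ) + 1 ≤ n' := by exact_mod_cast h
      show g j _ ≤ g i _
      linarith
  · intro x K hK
    obtain ⟨i, hi, t, ht, hx⟩ := hcover (x : UnitAddCircle) K.toNNReal
    have h0 : ((x - g i t : ℝ) : UnitAddCircle) = 0 := by
      rw [AddCircle.coe_sub, hga, hx, sub_self]
    obtain ⟨n, hn⟩ := (AddCircle.coe_eq_zero_iff (1 : ℝ)).mp h0
    refine ⟨i, hi, t, ⟨?_, ?_⟩, n, ?_⟩
    · have : (K.toNNReal : ℝ) ≤ t := by exact_mod_cast ht.1
      rwa [Real.coe_toNNReal _ hK] at this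
    · have : (t : ℝ) ≤ K.toNNReal + T := by exact_mod_cast ht.2
      rwa [Real.coe_toNNReal _ hK] at this
    · simp only [zsmul_eq_mul, mul_one] at hn
      simp only [Real.toNNReal_coe]
      linarith

end Pool.Agent.P.MP_de14bd_lc
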