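import Mathlib

/-!
An explicit patrol with overtaking: ten agents of speed 1, nine of speed 1/3 and a harmonic
tail of slow agents, on a line segment of length `27 + 2 C`, with idle time 4.
-/

namespace Pool.Agent.P.MP_de14bd_lc

open Finset

/-- Triangular wave of period `P`. -/
noncomputable def tri (P t : ℝ) : ℝ := ‖((t : ℝ) : AddCircle P)‖

theorem tri_lip (P x y : ℝ) : |tri P x - tri P y| ≤ |x - y| := by
  unfold tri
  refine (abs_norm_sub_norm_le _ _).trans ?_
  rw [← AddCircle.coe_sub]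
  exact QuotientAddGroup.norm_mk_le_norm

theorem tri_eq (P : ℝ) (hP : 0 < P) (n : ℤ) (y t : ℝ) (hy : 0 ≤ y) (hy' : y ≤ P / 2)
    (ht : t = y + n * P ∨ t = -y + n * P) : tri P t = y := by
  unfold tri
  have hn : ((n * P : ℝ) : AddCircle P) = 0 :=
    (AddCircle.coe_eq_zero_iff P).mpr ⟨n, by simp⟩
  have hyy : ‖((y : ℝ) : AddCircle P)‖ = y := by
    rw [(AddCircle.norm_coe_eq_abs_iff P hP.ne').mpr (by
      rw [abs_of_nonneg hy, abs_of_pos hP]; exact hy'), abs_of_nonneg hy]
  rcases ht with rfl | rfl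
  · rw [AddCircle.coe_add, hn, add_zero, hyy]
  · rw [AddCircle.coe_add, hn, add_zero, AddCircle.coe_neg, norm_neg, hyy]

theorem periodic_hit (V : ℝ → Prop) (P T a b c d : ℝ) (hP : 0 < P)
    (ha : ∀ n : ℤ, V (a + n * P)) (hb : ∀ n : ℤ, V (b + n * P)) (hc : ∀ n : ℤ, V (c + n * P))
    (hd : ∀ n : ℤ, V (d + n * P))
    (h1 : b ≤ a + T) (h2 : c ≤ b + T) (h3 : d ≤ c + T) (h4 : a + P ≤ d + T) (K : ℝ) :
    ∃ t ∈ Set.Icc K (K + T), V t := by
  set n : ℤ := ⌊(K - a) / P⌋ with hn
  have e1 : (n : ℝ) * P ≤ K - a := by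
    have := Int.floor_le ((K - a) / P)
    rwa [← hn, le_div_iff₀ hP] at this
  have e2 : K - a < (n + 1) * P := by
    have := Int.lt_floor_add_one ((K - a) / P)
    rwa [← hn, div_lt_iff₀ hP] at this
  by_cases k1 : K ≤ b + n * P
  · exact ⟨_, ⟨k1, by linarith⟩, hb n⟩
  by_cases k2 : K ≤ c + n * P
  · exact ⟨_, ⟨k2, by linarith⟩, hc n⟩
  by_cases k3 : K ≤ d + n * P
  · exact ⟨_, ⟨k3, by linarith⟩, hd n⟩
  refine ⟨_, ⟨?_, ?_⟩, ha (n + 1)⟩ <;> push_cast <;> linarith

/-- Speeds (before dividing by the length of the circle). -/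
noncomputable def w (i : ℕ) : ℝ :=
  if i < 10 then 1 else if i < 19 then 1 / 3 else 1 / (4 * (i + 1))

/-- Left end of the stretch of tail agent `i`. -/
noncomputable def base (i : ℕ) : ℝ := 30 + 2 * ∑ r ∈ Finset.Ico 19 i, w r

/-- Positions on the line. -/
noncomputable def pos (i : ℕ) (t : ℝ) : ℝ :=
  if i < 10 then 1 + 3 * i + tri 10 t
  else if i < 19 then 3 * (i - 9) + (tri 10 (t - 3) - 1) / 3
  else base i + w i * tri 4 t

theorem w_pos (i : ℕ) : 0 < w i := by
  unfold w; split_ifs <;> positivity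

theorem w_le_one (i : ℕ) : w i ≤ 1 := by
  unfold w; split_ifs
  · exact le_rfl
  · norm_num
  · rw [div_le_one (by positivity)]
    have : (0 : ℝ) ≤ i := Nat.cast_nonneg i
    linarith

theorem w_anti : Antitone w := by
  apply antitone_nat_of_succ_le
  intro i
  by_cases h1 : i < 10
  · have : w i = 1 := by simp [w, h1]
    rw [this]; exact w_le_one _
  by_cases h2 : i + 1 < 19
  · have h3 : i < 19 := by omega
    have h4 : ¬ i + 1 < 10 := by omega
    simp [w, h1, h2, h3, h4]
  have h4 : ¬ i + 1 < 10 := by omega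
  have hi : (0 : ℝ) ≤ i := Nat.cast_nonneg i
  by_cases h3 : i < 19
  · simp only [w, h1, h2, h3, h4, if_true, if_false]
    apply one_div_le_one_div_of_le (by norm_num)
    push_cast; linarith
  · simp only [w, h1, h2, h3, h4, if_false]
    apply one_div_le_one_div_of_le (by positivity)
    push_cast; linarith

theorem pos_lip (i : ℕ) (x y : ℝ) : |pos i x - pos i y| ≤ w i * |x - y| := by
  unfold pos
  split_ifs with h1 h2
  · have : w i = 1 := by simp [w, h1]
    rw [this, one_mul]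
    simpa using tri_lip 10 x y
  · have : w i = 1 / 3 := by simp [w, h1, h2]
    rw [this]
    have h := tri_lip 10 (x - 3) (y - 3)
    have e : x - 3 - (y - 3) = x - y := by ring
    rw [e] at h
    have e2 : 3 * ((i : ℝ) - 9) + (tri 10 (x - 3) - 1) / 3 - (3 * (i - 9) + (tri 10 (y - 3) - 1) / 3)
        = (1 / 3) * (tri 10 (x - 3) - tri 10 (y - 3)) := by ring
    rw [e2, abs_mul, abs_of_pos (by norm_num : (0 : ℝ) < 1 / 3)]
    linarith
  · have e2 : base i + w i * tri 4 x - (base i + w i * tri 4 y) = w i * (tri 4 x - tri 4 y) := by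
      ring
    rw [e2, abs_mul, abs_of_pos (w_pos i)]
    exact mul_le_mul_of_nonneg_left (tri_lip 4 x y) (w_pos i).le

theorem cover_fence (x : ℝ) (h1 : 3 ≤ x) (h2 : x < 30) (K : ℝ) :
    ∃ t ∈ Set.Icc K (K + 4), ∃ i, i < 19 ∧ pos i t = x := by
  obtain ⟨j, hj1, hj2⟩ : ∃ j : ℕ, (3 : ℝ) * (j + 1) ≤ x ∧ x < 3 * (j + 2) := by
    refine ⟨⌊x / 3 - 1⌋₊, ?_, ?_⟩
    · have := Nat.floor_le (show 0 ≤ x / 3 - 1 by linarith)
      linarith
    · have := Nat.lt_floor_add_one (x / 3 - 1)
      linarith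
  have hj9 : j < 9 := by
    have : (j : ℝ) < 9 := by linarith
    exact_mod_cast this
  set y := x - 3 * (j + 1) with hy
  have y0 : 0 ≤ y := by linarith
  have y3 : y < 3 := by linarith
  have fastj : ∀ t, tri 10 t = y + 2 → ∃ i, i < 19 ∧ pos i t = x := by
    intro t ht
    refine ⟨j, by omega, ?_⟩
    have : j < 10 := by omega
    simp only [pos, this, if_true, ht]
    linarith
  have fastj' : ∀ t, tri 10 t = y - 1 → ∃ i, i < 19 ∧ pos i t = x := by
    intro t ht
    refine ⟨j + 1, by omega, ?_⟩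
    have : j + 1 < 10 := by omega
    simp only [pos, this, if_true, ht]
    push_cast
    linarith
  have slow : ∀ t, tri 10 (t - 3) = 1 + 3 * y → ∃ i, i < 19 ∧ pos i t = x := by
    intro t ht
    refine ⟨j + 10, by omega, ?_⟩
    have a1 : ¬ j + 10 < 10 := by omega
    have a2 : j + 10 < 19 := by omega
    simp only [pos, a1, a2, if_true, if_false, ht]
    push_cast
    linarith
  rcases le_total y 1 with hy1 | hy1
  · apply periodic_hit (fun t => ∃ i, i < 19 ∧ pos i t = x) 10 4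
      (2 + y) (4 + 3 * y) (8 - y) (12 - 3 * y) (by norm_num)
    · intro n
      exact fastj _ (tri_eq 10 (by norm_num) n _ _ (by linarith) (by linarith) (Or.inl (by ring)))
    · intro n
      exact slow _ (tri_eq 10 (by norm_num) n _ _ (by linarith) (by linarith) (Or.inl (by ring)))
    · intro n
      exact fastj _ (tri_eq 10 (by norm_num) (n + 1) _ _ (by linarith) (by linarith)
        (Or.inr (by push_cast; ring)))
    · intro n
      exact slow _ (tri_eq 10 (by norm_num) (n + 1) _ _ (by linarith) (by linarith)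
        (Or.inr (by push_cast; ring)))
    all_goals linarith
  · apply periodic_hit (fun t => ∃ i, i < 19 ∧ pos i t = x) 10 4
      (y - 1) (y + 2) (8 - y) (11 - y) (by norm_num)
    · intro n
      exact fastj' _ (tri_eq 10 (by norm_num) n _ _ (by linarith) (by linarith) (Or.inl (by ring)))
    · intro n
      exact fastj _ (tri_eq 10 (by norm_num) n _ _ (by linarith) (by linarith) (Or.inl (by ring)))
    · intro n
      exact fastj _ (tri_eq 10 (by norm_num) (n + 1) _ _ (by linarith) (by linarith)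
        (Or.inr (by push_cast; ring)))
    · intro n
      exact fastj' _ (tri_eq 10 (by norm_num) (n + 1) _ _ (by linarith) (by linarith)
        (Or.inr (by push_cast; ring)))
    all_goals linarith

theorem base_succ (i : ℕ) (hi : 19 ≤ i) : base (i + 1) = base i + 2 * w i := by
  unfold base
  rw [Finset.sum_Ico_succ_top hi]
  ring

theorem cover_tail (k : ℕ) (hk : 20 ≤ k) (x : ℝ) (h1 : 30 ≤ x) (h2 : x ≤ base k) (K : ℝ) :
    ∃ t ∈ Set.Icc K (K + 4), ∃ i, i < k ∧ pos i t = x := by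
  obtain ⟨i, hi1, hi2, hi3, hi4⟩ : ∃ i, 19 ≤ i ∧ i < k ∧ base i ≤ x ∧ x ≤ base (i + 1) := by
    induction k, hk using Nat.le_induction with
    | base => exact ⟨19, le_rfl, by norm_num, by simpa [base] using h1, h2⟩
    | succ m hm ih =>
      rcases le_total x (base m) with h | h
      · obtain ⟨i, a1, a2, a3, a4⟩ := ih h
        exact ⟨i, a1, by omega, a3, a4⟩
      · exact ⟨m, by omega, by omega, h, h2⟩
  rw [base_succ i hi1] at hi4
  have hw := w_pos i
  set y := (x - base i) / w i with hy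
  have y0 : 0 ≤ y := div_nonneg (by linarith) hw.le
  have y2 : y ≤ 2 := by rw [hy, div_le_iff₀ hw]; linarith
  have vis : ∀ t, tri 4 t = y → ∃ i, i < k ∧ pos i t = x := by
    intro t ht
    refine ⟨i, hi2, ?_⟩
    have a1 : ¬ i < 10 := by omega
    have a2 : ¬ i < 19 := by omega
    simp only [pos, a1, a2, if_false, ht, hy]
    field_simp
    ring
  have hv : ∀ n : ℤ, ∃ i, i < k ∧ pos i (y + n * 4) = x := fun n =>
    vis _ (tri_eq 4 (by norm_num) n _ _ y0 (by linarith) (Or.inl rfl))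
  apply periodic_hit (fun t => ∃ i, i < k ∧ pos i t = x) 4 4 y y y y (by norm_num) hv hv hv hv
  all_goals linarith

theorem cover_all (k : ℕ) (hk : 20 ≤ k) (x : ℝ) (h1 : 3 ≤ x) (h2 : x ≤ base k) (K : ℝ) :
    ∃ t ∈ Set.Icc K (K + 4), ∃ i, i < k ∧ pos i t = x := by
  rcases lt_or_ge x 30 with h | h
  · obtain ⟨t, ht, i, hi, hx⟩ := cover_fence x h1 h K
    exact ⟨t, ht, i, by omega, hx⟩
  · exact cover_tail k hk x h h2 K

theorem exists_long : ∃ k, 20 ≤ k ∧ 80 ≤ base k := by
  have hdiv := Real.tendsto_sum_range_one_div_nat_succ_atTop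
  obtain ⟨N, hN⟩ := Filter.eventually_atTop.mp (hdiv.eventually_ge_atTop (119 : ℝ))
  refine ⟨max N 20, le_max_right _ _, ?_⟩
  have h1 := hN (max N 20) (le_max_left _ _)
  have h19 : 19 ≤ max N 20 := le_trans (by norm_num) (le_max_right _ _)
  rw [Finset.range_eq_Ico, ← Finset.sum_Ico_consecutive _ (Nat.zero_le 19) h19] at h1
  have h2 : ∑ i ∈ Finset.Ico (0 : ℕ) 19, (1 : ℝ) / ((i : ℝ) + 1)
      ≤ ∑ _i ∈ Finset.Ico (0 : ℕ) 19, (1 : ℝ) := by
    apply Finset.sum_le_sum
    intro i _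
    rw [div_le_one (by positivity)]
    have : (0 : ℝ) ≤ i := Nat.cast_nonneg i
    linarith
  have h3 : ∑ i ∈ Finset.Ico 19 (max N 20), (1 : ℝ) / (i + 1)
      = 4 * ∑ r ∈ Finset.Ico 19 (max N 20), w r := by
    rw [Finset.mul_sum]
    apply Finset.sum_congr rfl
    intro i hi
    have hi' := (Finset.mem_Ico.mp hi).1
    have a1 : ¬ i < 10 := by omega
    have a2 : ¬ i < 19 := by omega
    simp only [w, a1, a2, if_false]
    field_simp
  simp only [Finset.sum_const, Nat.card_Ico, nsmul_eq_mul, mul_one, Nat.sub_zero,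
    Nat.cast_ofNat] at h2
  unfold base
  linarith

theorem sum_w (k : ℕ) (hk : 19 ≤ k) : 2 * ∑ i ∈ Finset.range k, w i = base k - 4 := by
  rw [Finset.range_eq_Ico, ← Finset.sum_Ico_consecutive _ (Nat.zero_le 19) hk]
  have : ∑ i ∈ Finset.Ico 0 19, w i = 13 := by
    rw [← Finset.range_eq_Ico]
    simp only [Finset.sum_range_succ, Finset.sum_range_zero, w]
    norm_num
  rw [this]
  unfold base
  ring

/-- The quantity that bounds order-preserving patrols is below the length that is patrolled. -/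
theorem subset_bound (k : ℕ) (hk : 20 ≤ k) (hb : 80 ≤ base k) (S : Finset (Fin k))
    (hS : S.Nonempty) :
    ∃ s ∈ S, 2 * (∑ j ∈ S, w j + S.card * w s) ≤ base k - 3 - 1 / 2 := by
  refine ⟨S.max' hS, S.max'_mem hS, ?_⟩
  set s := S.max' hS with hs
  have hsub : S ⊆ Finset.Iic s := fun j hj => Finset.mem_Iic.mpr (S.le_max' j hj)
  have hcard : S.card ≤ (s : ℕ) + 1 := by
    have := Finset.card_le_card hsub
    rwa [Fin.card_Iic] at this
  have hcard' : (S.card : ℝ) ≤ (s : ℕ) + 1 := by exact_mod_cast hcard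
  by_cases h19 : (s : ℕ) < 19
  · have c19 : (S.card : ℝ) ≤ 19 := by exact_mod_cast (by omega : S.card ≤ 19)
    have a1 : ∑ j ∈ S, w j ≤ ∑ _j ∈ S, (1 : ℝ) := Finset.sum_le_sum fun j _ => w_le_one _
    simp only [Finset.sum_const, nsmul_eq_mul, mul_one] at a1
    have a2 : (S.card : ℝ) * w s ≤ S.card * 1 :=
      mul_le_mul_of_nonneg_left (w_le_one _) (Nat.cast_nonneg _)
    linarith
  · have a1 : ∑ j ∈ S, w j ≤ ∑ j : Fin k, w j :=
      Finset.sum_le_sum_of_subset_of_nonneg (Finset.subset_univ _) fun j _ _ => (w_pos _).le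
    rw [Fin.sum_univ_eq_sum_range w k] at a1
    have a2 := sum_w k (by omega)
    have h10 : ¬ (s : ℕ) < 10 := by omega
    have a3 : (((s : ℕ) : ℝ) + 1) * w s = 1 / 4 := by
      simp only [w, h10, h19, if_false]
      field_simp
    have a4 : (S.card : ℝ) * w s ≤ (((s : ℕ) : ℝ) + 1) * w s :=
      mul_le_mul_of_nonneg_right hcard' (w_pos _).le
    linarith

open NNReal in
/-- The patrol on the circle. -/
theorem circle_patrol (k : ℕ) (hk : 20 ≤ k) (hb : 80 ≤ base k) :
    ∃ a : Fin k → ℝ≥0 → UnitAddCircle, (∀ i, Continuous (a i)) ∧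
      (∀ i : Fin k, ∀ t ε : ℝ≥0, dist (a i t) (a i (t + ε)) ≤ w i / (base k - 3) * ε) ∧
      ∀ x : UnitAddCircle, ∀ K : ℝ≥0, ∃ i, ∃ t ∈ Set.Icc K (K + 4), a i t = x := by
  set L := base k - 3 with hL
  have hL0 : 0 < L := by linarith
  refine ⟨fun i t => ((pos i t / L : ℝ) : UnitAddCircle), fun i => ?_, fun i t ε => ?_,
    fun x K => ?_⟩
  · have hc : Continuous (pos i) := by
      have : LipschitzWith (w i).toNNReal (pos i) := by
        apply LipschitzWith.of_dist_le'
        intro x y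
        simpa [Real.dist_eq] using pos_lip i x y
      exact this.continuous
    exact (AddCircle.continuous_mk' (1 : ℝ)).comp ((hc.comp NNReal.continuous_coe).div_const L)
  · have hq : ∀ r r' : ℝ, dist ((r : ℝ) : UnitAddCircle) ((r' : ℝ) : UnitAddCircle)
        ≤ |r - r'| := by
      intro r r'
      rw [dist_eq_norm, ← AddCircle.coe_sub]
      exact QuotientAddGroup.norm_mk_le_norm
    refine (hq _ _).trans ?_
    rw [← _root_.sub_div, abs_div, abs_of_pos hL0, div_mul_eq_mul_div]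
    apply div_le_div_of_nonneg_right _ hL0.le
    have := pos_lip i t ((t + ε : ℝ≥0) : ℝ)
    simpa using this
  · obtain ⟨z, hz, rfl⟩ : ∃ z ∈ Set.Ico (3 / L) (3 / L + 1), ((z : ℝ) : UnitAddCircle) = x := by
      have : Fact ((0 : ℝ) < 1) := ⟨one_pos⟩
      refine ⟨(AddCircle.equivIco 1 (3 / L) x : ℝ), (AddCircle.equivIco 1 (3 / L) x).2, ?_⟩
      exact (AddCircle.equivIco 1 (3 / L)).symm_apply_apply x
    have z1 : 3 ≤ z * L := by
      have := hz.1
      rwa [div_le_iff₀ hL0] at this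
    have z2 : z * L ≤ base k := by
      have h := hz.2
      have : z * L < (3 / L + 1) * L := mul_lt_mul_of_pos_right h hL0
      rw [add_mul, div_mul_cancel₀ _ hL0.ne'] at this
      linarith
    obtain ⟨t, ht, i, hi, hx⟩ := cover_all k hk (z * L) z1 z2 K
    have ht0 : 0 ≤ t := K.2.trans ht.1
    lift t to ℝ≥0 using ht0
    refine ⟨⟨i, hi⟩, t, ⟨?_, ?_⟩, ?_⟩
    · exact_mod_cast ht.1
    · exact_mod_cast ht.2
    · simp only [hx]
      rw [mul_div_cancel_right₀ _ hL0.ne']

end Pool.Agent.P.MP_de14bd_lc
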